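import Pool.Agent.Helper95.RP.St

/-!
# Project RP: module DB (removal of a vertex)
-/

set_option autoImplicit false

namespace Pool.Agent.Helper2.RP

open Pool.Agent.Helper95.RP Finset
open scoped Classical

theorem db_mem {N : ℕ} {G : SimpleGraph (Fin N)} {V : Finset (Fin N)} {cl : Cp N → Lb N}
    {p : Fin N × Fin N} : p ∈ Ed G V cl ↔
      (p.1 ∈ V ∧ p.2 ∈ V) ∧ G.Adj p.1 p.2 ∧ cl (p.1, false) = cl (p.2, true) := by
  unfold Ed
  rw [mem_filter, mem_product]

theorem db_ej {N : ℕ} (G : SimpleGraph (Fin N)) (V : Finset (Fin N)) (cl : Cp N → Lb N)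
    (j : Lb N) : ej G V cl j = ((Ed G V cl).filter (fun p => cl (p.1, false) = j)).card := by
  unfold ej inn
  congr 1
  apply filter_congr
  intro p hp
  obtain ⟨⟨h1, h2⟩, _, h4⟩ := db_mem.1 hp
  unfold Qc
  rw [mem_filter, mem_filter]
  constructor
  · rintro ⟨⟨_, _, h⟩, _⟩
    exact h
  · intro h
    exact ⟨⟨mem_univ _, h1, h⟩, ⟨mem_univ _, h2, by rw [← h4]; exact h⟩⟩

theorem hDB : DB := by
  intro hXL N G V cl b lam u hb hu
  set E := Ed G V cl with hE
  set P : Fin N × Fin N → Prop := fun p => p.1 = u ∨ p.2 = u with hP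
  set B := E.filter P with hB
  -- the edges after the removal
  have hE' : Ed G (V.erase u) cl = E.filter (fun p => ¬ P p) := by
    ext p
    rw [mem_filter, hE, db_mem, db_mem, mem_erase, mem_erase]
    simp only [hP, not_or]
    tauto
  have hcount : ∀ j : Lb N, ej G V cl j =
      ej G (V.erase u) cl j + (B.filter (fun p => cl (p.1, false) = j)).card := by
    intro j
    rw [db_ej, db_ej, hE', hB, ← hE, filter_filter, filter_filter]
    have h1 := card_filter_add_card_filter_not (s := E.filter (fun p => cl (p.1, false) = j)) P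
    rw [filter_filter, filter_filter] at h1
    rw [← h1, add_comm]
    congr 1
    · congr 1
      apply filter_congr
      intro p _
      tauto
    · congr 1
      apply filter_congr
      intro p _
      tauto
  have hBsum : B.card = ∑ j : Lb N, (B.filter (fun p => cl (p.1, false) = j)).card :=
    card_eq_sum_card_fiberwise (fun p _ => mem_univ _)
  have hBle : B.card ≤ inc E (u, false) + inc E (u, true) := by
    unfold inc
    rw [hB]
    refine le_trans (card_le_card (t := E.filter (fun p => (p.1, false) = (u, false) ∨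
      (p.2, true) = (u, false)) ∪ E.filter (fun p => (p.1, false) = (u, true) ∨
      (p.2, true) = (u, true))) ?_) (card_union_le _ _)
    intro p hp
    rw [mem_filter] at hp
    rw [mem_union, mem_filter, mem_filter]
    rcases hp.2 with h | h
    · left; exact ⟨hp.1, Or.inl (by rw [h])⟩
    · right; exact ⟨hp.1, Or.inr (by rw [h])⟩
  have hhle : ∀ n' n : ℕ, n' ≤ n → hh b n - ((n : ℝ) - (n' : ℝ)) ≤ hh b n' := by
    intro n' n hn
    unfold hh
    have h1 := mul_le_mul_of_nonneg_left (hXL.1 n' n hn) hb
    linarith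
  have hsum : ∑ j : Lb N, hh b (ej G V cl j) - (B.card : ℝ) ≤
      ∑ j : Lb N, hh b (ej G (V.erase u) cl j) := by
    rw [hBsum]
    push_cast
    rw [← sum_sub_distrib]
    apply sum_le_sum
    intro j _
    have h1 := hhle (ej G (V.erase u) cl j) (ej G V cl j) (by rw [hcount j]; omega)
    have h2 : ((ej G V cl j : ℕ) : ℝ) - ((ej G (V.erase u) cl j : ℕ) : ℝ) =
        ((B.filter (fun p => cl (p.1, false) = j)).card : ℝ) := by
      rw [hcount j]; push_cast; ring
    rw [h2] at h1
    exact h1
  have hcard : ((V.erase u).card : ℝ) = (V.card : ℝ) - 1 := by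
    have h1 := card_erase_add_one hu
    have h2 : ((V.erase u).card : ℝ) + 1 = (V.card : ℝ) := by exact_mod_cast h1
    linarith
  have hBle' : (B.card : ℝ) ≤ ((inc E (u, false) + inc E (u, true) : ℕ) : ℝ) := by
    exact_mod_cast hBle
  unfold Psi
  rw [hcard]
  linarith

end Pool.Agent.Helper2.RP
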