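import Pool.Agent.Helper95.RP.St

/-!
# Project RP: module DC (a class is split)
-/

set_option autoImplicit false

namespace Pool.Agent.Helper2.RP

open Pool.Agent.Helper95.RP Finset
open scoped Classical

theorem dc_mem {N : ℕ} {G : SimpleGraph (Fin N)} {V : Finset (Fin N)} {cl : Cp N → Lb N}
    {p : Fin N × Fin N} : p ∈ Ed G V cl ↔
      (p.1 ∈ V ∧ p.2 ∈ V) ∧ G.Adj p.1 p.2 ∧ cl (p.1, false) = cl (p.2, true) := by
  unfold Ed
  rw [mem_filter, mem_product]

theorem dc_mq {N : ℕ} {V : Finset (Fin N)} {cl : Cp N → Lb N} {j : Lb N} {x : Cp N} :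
    x ∈ Qc V cl j ↔ x.1 ∈ V ∧ cl x = j := by
  unfold Qc
  rw [mem_filter]
  exact ⟨fun h => h.2, fun h => ⟨mem_univ _, h⟩⟩

/-- number of edges between marked vertices -/
theorem dc_ej {N : ℕ} (G : SimpleGraph (Fin N)) (V : Finset (Fin N)) (cl : Cp N → Lb N)
    (j : Lb N) : ej G V cl j = ((V ×ˢ V).filter (fun p => G.Adj p.1 p.2 ∧
      cl (p.1, false) = j ∧ cl (p.2, true) = j)).card := by
  unfold ej inn
  congr 1
  ext p
  rw [mem_filter, dc_mem, dc_mq, dc_mq, mem_filter, mem_product]
  constructor
  · rintro ⟨⟨h1, h2, h3⟩, h4, h5⟩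
    exact ⟨h1, h2, h4.2, h5.2⟩
  · rintro ⟨h1, h2, h4, h5⟩
    exact ⟨⟨h1, h2, by rw [h4, h5]⟩, ⟨h1.1, h4⟩, ⟨h1.2, h5⟩⟩

theorem dc_inn {N : ℕ} (G : SimpleGraph (Fin N)) (V : Finset (Fin N)) (cl : Cp N → Lb N)
    (j : Lb N) (S : Finset (Cp N)) (hS : S ⊆ Qc V cl j) :
    inn (Ed G V cl) S = ((V ×ˢ V).filter (fun p => G.Adj p.1 p.2 ∧
      (p.1, false) ∈ S ∧ (p.2, true) ∈ S)).card := by
  unfold inn
  congr 1
  ext p
  rw [mem_filter, dc_mem, mem_filter, mem_product]
  constructor
  · rintro ⟨⟨h1, h2, _⟩, h4, h5⟩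
    exact ⟨h1, h2, h4, h5⟩
  · rintro ⟨h1, h2, h4, h5⟩
    refine ⟨⟨h1, h2, ?_⟩, h4, h5⟩
    rw [(dc_mq.1 (hS h4)).2, (dc_mq.1 (hS h5)).2]

theorem hDC : DC := by
  intro N G V cl b lam j S hS
  refine ⟨?_, ?_⟩
  · unfold ej inn cut
    rw [card_filter, card_filter, card_filter, card_filter, ← sum_add_distrib, ← sum_add_distrib]
    apply sum_congr rfl
    intro p hp
    obtain ⟨⟨h1, h2⟩, _, h4⟩ := dc_mem.1 hp
    have hq : (p.1, false) ∈ Qc V cl j ↔ (p.2, true) ∈ Qc V cl j := by
      rw [dc_mq, dc_mq]
      constructor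
      · rintro ⟨_, h⟩; exact ⟨h2, by rw [← h4]; exact h⟩
      · rintro ⟨_, h⟩; exact ⟨h1, by rw [h4]; exact h⟩
    have hs1 : (p.1, false) ∈ S → (p.1, false) ∈ Qc V cl j := fun h => hS h
    have hs2 : (p.2, true) ∈ S → (p.2, true) ∈ Qc V cl j := fun h => hS h
    simp only [mem_sdiff]
    by_cases a1 : (p.1, false) ∈ S
    · have b1 := hs1 a1
      have b2 := hq.1 b1
      by_cases a2 : (p.2, true) ∈ S
      · simp [a1, a2, b1, b2]
      · simp [a1, a2, b1, b2]
    · by_cases a2 : (p.2, true) ∈ S
      · have b2 := hs2 a2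
        have b1 := hq.2 b2
        simp [a1, a2, b1, b2]
      · by_cases b1 : (p.1, false) ∈ Qc V cl j
        · have b2 := hq.1 b1
          simp [a1, a2, b1, b2]
        · have b2 : (p.2, true) ∉ Qc V cl j := fun h => b1 (hq.2 h)
          simp [a1, a2, b1, b2]
  · have hh0 : hh b 0 = 0 := by unfold hh; simp
    by_cases hne : S = ∅
    · refine ⟨cl, ?_⟩
      subst hne
      have h1 : inn (Ed G V cl) ∅ = 0 := by unfold inn; simp
      have h2 : inn (Ed G V cl) (Qc V cl j \ ∅) = ej G V cl j := by rw [sdiff_empty]; rfl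
      rw [h1, h2, hh0]
      linarith
    · obtain ⟨x0, hx0⟩ := nonempty_iff_ne_empty.2 hne
      have hj0 : cl x0 = j := (dc_mq.1 (hS hx0)).2
      obtain ⟨j', hj'⟩ : ∃ j' : Lb N, ∀ x : Cp N, cl x ≠ j' := by
        by_contra hcon
        push Not at hcon
        have h1 : Function.Surjective cl := fun y => hcon y
        have h2 : Fintype.card (Option (Fin N × Bool)) ≤ Fintype.card (Fin N × Bool) :=
          Fintype.card_le_of_surjective cl h1
        rw [Fintype.card_option] at h2
        omega
      have hjj : j ≠ j' := fun h => hj' x0 (by rw [hj0, h])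
      have hSj : ∀ x ∈ S, cl x = j := fun x hx => (dc_mq.1 (hS hx)).2
      set cl' : Cp N → Lb N := fun x => if x ∈ S then j' else cl x with hcl'
      refine ⟨cl', le_of_eq ?_⟩
      have e1 : ej G V cl' j' = inn (Ed G V cl) S := by
        rw [dc_ej, dc_inn G V cl j S hS]
        congr 1
        apply filter_congr
        intro p _
        have h1 : ∀ x : Cp N, cl' x = j' ↔ x ∈ S := by
          intro x
          rw [hcl']
          by_cases h : x ∈ S
          · simp [h]
          · simp [h, hj' x]
        rw [h1, h1]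
      have e2 : ej G V cl' j = inn (Ed G V cl) (Qc V cl j \ S) := by
        rw [dc_ej, dc_inn G V cl j _ sdiff_subset]
        congr 1
        apply filter_congr
        intro p hp
        rw [mem_product] at hp
        have h1 : ∀ x : Cp N, x.1 ∈ V → (cl' x = j ↔ x ∈ Qc V cl j \ S) := by
          intro x hx
          rw [mem_sdiff, dc_mq, hcl']
          by_cases h : x ∈ S
          · simp [h, hjj.symm]
          · simp [h, hx]
        rw [h1 (p.1, false) hp.1, h1 (p.2, true) hp.2]
      have e3 : ∀ i : Lb N, i ≠ j → i ≠ j' → ej G V cl' i = ej G V cl i := by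
        intro i hi hi'
        rw [dc_ej, dc_ej]
        congr 1
        apply filter_congr
        intro p _
        have h1 : ∀ x : Cp N, cl' x = i ↔ cl x = i := by
          intro x
          rw [hcl']
          by_cases h : x ∈ S
          · simp only [h, if_true]
            constructor
            · intro h2; exact absurd h2.symm hi'
            · intro h2
              rw [hSj x h] at h2
              exact absurd h2.symm hi
          · simp [h]
        rw [h1, h1]
      have e4 : ej G V cl j' = 0 := by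
        rw [dc_ej, card_eq_zero, filter_eq_empty_iff]
        rintro p _ ⟨_, h2, _⟩
        exact hj' _ h2
      have hpt : ∀ i : Lb N, hh b (ej G V cl' i) = hh b (ej G V cl i) +
          ((if i = j' then hh b (inn (Ed G V cl) S) else 0) +
           (if i = j then hh b (inn (Ed G V cl) (Qc V cl j \ S)) - hh b (ej G V cl j) else 0)) := by
        intro i
        by_cases hi : i = j
        · subst hi
          rw [e2]
          simp [hjj]
        · by_cases hi' : i = j'
          · subst hi'
            rw [e1, e4, hh0]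
            simp [hi]
          · rw [e3 i hi hi']
            simp [hi, hi']
      unfold Psi
      rw [sum_congr rfl (fun i _ => hpt i), sum_add_distrib, sum_add_distrib, sum_ite_eq' univ j',
        sum_ite_eq' univ j]
      simp only [mem_univ, if_true]
      ring

end Pool.Agent.Helper2.RP
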